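import Mathlib
import Pool.Agent.Helper27.Hurewicz

set_option autoImplicit false

namespace Pool.Agent.Results.MP_e9e8de_lc.BorelImpliesGdelta

open Set TopologicalSpace Pool.Agent.Helper27
open scoped MeasureTheory

/-- The relation `E`: pairs `(x, y)` of points of Baire space such that the open sets coded by `x`
and `y` with respect to `U` are equal. -/
def sameOpen {X : Type*} (U : ℕ → Set X) : Set ((ℕ → ℕ) × (ℕ → ℕ)) :=
  {z | ⋃ n, U (z.1 n) = ⋃ n, U (z.2 n)}

/-- Codes of open sets containing `U n`. -/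
def above {X : Type*} (U : ℕ → Set X) (n : ℕ) : Set (ℕ → ℕ) := {y | U n ⊆ ⋃ k, U (y k)}

/-- Downward closed sets of indices. -/
def downSets {X : Type*} (U : ℕ → Set X) : Set Can :=
  {a | ∀ m n, U m ⊆ U n → a n = true → a m = true}

/-- Downward closed sets of indices whose union contains `U n`. -/
def aboveD {X : Type*} (U : ℕ → Set X) (n : ℕ) : Set Can :=
  {a | a ∈ downSets U ∧ U n ⊆ ⋃ m ∈ {m | a m = true}, U m}

theorem isClosed_downSets {X : Type*} (U : ℕ → Set X) : IsClosed (downSets U) := by
  have : downSets U = ⋂ (m : ℕ) (n : ℕ) (_ : U m ⊆ U n),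
      ((fun a : Can => a n) ⁻¹' {false} ∪ (fun a : Can => a m) ⁻¹' {true}) := by
    ext a
    simp only [downSets, mem_ofPred_eq, mem_iInter, mem_union, mem_preimage, mem_singleton_iff]
    constructor
    · intro h m n hmn
      by_cases h1 : a n = true
      · exact Or.inr (h m n hmn h1)
      · exact Or.inl (by simpa using h1)
    · intro h m n hmn h1
      rcases h m n hmn with h2 | h2
      · rw [h1] at h2; exact absurd h2 (by simp)
      · exact h2
  rw [this]
  refine isClosed_iInter fun m => isClosed_iInter fun n => isClosed_iInter fun _ => ?_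
  exact ((isClosed_discrete _).preimage (continuous_apply n)).union
    ((isClosed_discrete _).preimage (continuous_apply m))

/-- Enumeration of a nonempty set of indices containing `m`. -/
def enumC (m : ℕ) (a : Can) : ℕ → ℕ := fun k => if a k = true then k else m

theorem continuous_enumC (m : ℕ) : Continuous (enumC m) := by
  refine continuous_pi fun k => ?_
  exact (continuous_of_discreteTopology (f := fun b : Bool => if b = true then k else m)).comp
    (continuous_apply k)

theorem iUnion_enumC {X : Type*} (U : ℕ → Set X) (m : ℕ) (a : Can) (ha : a m = true) :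
    ⋃ k, U (enumC m a k) = ⋃ m ∈ {m | a m = true}, U m := by
  ext x
  simp only [mem_iUnion, mem_ofPred_eq]
  constructor
  · rintro ⟨k, hk⟩
    by_cases h : a k = true
    · exact ⟨k, h, by simpa [enumC, h] using hk⟩
    · exact ⟨m, ha, by simpa [enumC, h] using hk⟩
  · rintro ⟨k, hk, hx⟩
    exact ⟨k, by simpa [enumC, hk] using hx⟩

theorem measurableSet_aboveD {X : Type*} (U : ℕ → Set X) (n : ℕ) (hne : (U n).Nonempty)
    (h : MeasurableSet (above U n)) : MeasurableSet (aboveD U n) := by
  have : aboveD U n = downSets U ∩ ⋃ m, ((fun a : Can => a m) ⁻¹' {true} ∩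
      enumC m ⁻¹' (above U n)) := by
    ext a
    constructor
    · rintro ⟨h1, h2⟩
      refine ⟨h1, ?_⟩
      obtain ⟨x, hx⟩ := hne
      have := h2 hx
      simp only [mem_iUnion, mem_ofPred_eq] at this
      obtain ⟨m, hm, _⟩ := this
      refine mem_iUnion.2 ⟨m, hm, ?_⟩
      show U n ⊆ ⋃ k, U (enumC m a k)
      rw [iUnion_enumC U m a hm]
      exact h2
    · rintro ⟨h1, h2⟩
      obtain ⟨m, hm, h3⟩ := mem_iUnion.1 h2
      refine ⟨h1, ?_⟩
      have h4 : U n ⊆ ⋃ k, U (enumC m a k) := h3
      rwa [iUnion_enumC U m a hm] at h4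
  rw [this]
  apply (isClosed_downSets U).measurableSet.inter
  refine MeasurableSet.iUnion fun m => ?_
  apply MeasurableSet.inter
  · exact (measurable_pi_apply m) (measurableSet_singleton _)
  · exact (continuous_enumC m).measurable h

theorem compact_lower {X : Type*} [TopologicalSpace X] (U : ℕ → Set X)
    (hU : IsTopologicalBasis (range U)) (n : ℕ) (L : Set Can) (hL : IsClosed L)
    (hLs : L ⊆ aboveD U n) :
    ∃ A ∈ aboveD U n, ∀ a ∈ L, ∀ m, A m = true → a m = true := by
  classical
  refine ⟨fun m => decide (∀ a ∈ L, a m = true), ⟨?_, ?_⟩, ?_⟩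
  · intro m k hmk hk
    rw [decide_eq_true_eq] at hk ⊢
    intro a ha
    exact (hLs ha).1 m k hmk (hk a ha)
  · intro p hp
    have hcov : L ⊆ ⋃ k : {k : ℕ // p ∈ U k}, (fun a : Can => a k.1) ⁻¹' {true} := by
      intro a ha
      have := (hLs ha).2 hp
      simp only [mem_iUnion, mem_ofPred_eq] at this
      obtain ⟨k, hk, hpk⟩ := this
      exact mem_iUnion.2 ⟨⟨k, hpk⟩, hk⟩
    obtain ⟨t, ht⟩ := hL.isCompact.elim_finite_subcover
      (fun k : {k : ℕ // p ∈ U k} => (fun a : Can => a k.1) ⁻¹' {true})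
      (fun k => (isOpen_discrete ({true} : Set Bool)).preimage (continuous_apply k.1)) hcov
    have hopen : IsOpen (⋂ k ∈ t, U k.1) := by
      apply isOpen_biInter_finset
      intro k _
      exact hU.isOpen (mem_range_self _)
    have hpm : p ∈ ⋂ k ∈ t, U k.1 := by
      rw [mem_iInter₂]
      exact fun k _ => k.2
    obtain ⟨_, ⟨m, rfl⟩, hpm2, hsub⟩ := hU.exists_subset_of_mem_open hpm hopen
    simp only [mem_iUnion, mem_ofPred_eq]
    refine ⟨m, ?_, hpm2⟩
    rw [decide_eq_true_eq]
    intro a ha
    obtain ⟨k, hk, hak⟩ := mem_iUnion₂.1 (ht ha)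
    apply (hLs ha).1 m k.1 _ hak
    exact hsub.trans (biInter_subset_of_mem hk)
  · intro a ha m hm
    rw [decide_eq_true_eq] at hm
    exact hm a ha

theorem isGδ_above {X : Type*} [TopologicalSpace X] (U : ℕ → Set X)
    (hU : IsTopologicalBasis (range U)) (n : ℕ) (h : MeasurableSet (above U n)) :
    ∃ W : ℕ → Set (ℕ → ℕ), (∀ j, IsOpen (W j)) ∧ above U n = ⋂ j, W j := by
  rcases (U n).eq_empty_or_nonempty with he | hne
  · refine ⟨fun _ => univ, fun _ => isOpen_univ, ?_⟩
    ext y
    simp [above, he]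
  have hmeas := measurableSet_aboveD U n hne h
  have : PolishSpace Can := { }
  have hTm : MeasurableSet (downSets U \ aboveD U n) :=
    (isClosed_downSets U).measurableSet.diff hmeas
  obtain ⟨F, hF1, hF2, hF3⟩ := separation (aboveD U n) (downSets U \ aboveD U n)
    hmeas.analyticSet hTm.analyticSet (compact_lower U hU n) (by
      intro a ha b hb hab
      apply hb.2
      refine ⟨hb.1, ha.2.trans ?_⟩
      intro x hx
      simp only [mem_iUnion, mem_ofPred_eq] at hx ⊢
      obtain ⟨m, hm, hx⟩ := hx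
      exact ⟨m, hab m hm, hx⟩)
  refine ⟨fun j => {y | ∃ a ∈ F j ∩ downSets U, ∀ k, a (y k) = true}ᶜ, ?_, ?_⟩
  · intro j
    rw [isOpen_compl_iff]
    have hZ : IsClosed {p : (ℕ → ℕ) × Can | p.2 ∈ F j ∩ downSets U ∧ ∀ k, p.2 (p.1 k) = true} := by
      have : {p : (ℕ → ℕ) × Can | p.2 ∈ F j ∩ downSets U ∧ ∀ k, p.2 (p.1 k) = true} =
          (Prod.snd ⁻¹' (F j ∩ downSets U)) ∩ ⋂ k : ℕ, (⋃ m : ℕ,
            ({p : (ℕ → ℕ) × Can | p.1 k = m} ∩ {p : (ℕ → ℕ) × Can | p.2 m = false}))ᶜ := by
        ext p
        simp only [mem_ofPred_eq, mem_inter_iff, mem_preimage, mem_iInter, mem_compl_iff,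
          mem_iUnion, not_exists, not_and, Bool.not_eq_false]
        constructor
        · rintro ⟨h1, h2⟩
          refine ⟨h1, ?_⟩
          intro k m hm
          rw [← hm]
          exact h2 k
        · rintro ⟨h1, h2⟩
          exact ⟨h1, fun k => h2 k _ rfl⟩
      rw [this]
      apply (((hF1 j).inter (isClosed_downSets U)).preimage continuous_snd).inter
      refine isClosed_iInter fun k => ?_
      rw [isClosed_compl_iff]
      refine isOpen_iUnion fun m => ?_
      apply IsOpen.inter
      · exact (isOpen_discrete ({m} : Set ℕ)).preimage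
          (f := fun p : (ℕ → ℕ) × Can => p.1 k) ((continuous_apply k).comp continuous_fst)
      · exact (isOpen_discrete ({false} : Set Bool)).preimage
          (f := fun p : (ℕ → ℕ) × Can => p.2 m) ((continuous_apply m).comp continuous_snd)
    have := isClosedMap_fst_of_compactSpace _ hZ
    convert this using 1
    ext y
    constructor
    · rintro ⟨a, ha, hk⟩
      exact ⟨(y, a), ⟨ha, hk⟩, rfl⟩
    · rintro ⟨⟨y', a⟩, ⟨ha, hk⟩, rfl⟩
      exact ⟨a, ha, hk⟩
  · ext y
    simp only [mem_iInter, mem_compl_iff, mem_ofPred_eq, not_exists, not_and]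
    constructor
    · intro hy j a ha hk
      have hmem : a ∈ aboveD U n := by
        refine ⟨ha.2, (show U n ⊆ ⋃ k, U (y k) from hy).trans ?_⟩
        intro x hx
        obtain ⟨k, hx⟩ := mem_iUnion.1 hx
        exact mem_iUnion₂.2 ⟨y k, hk k, hx⟩
      exact Set.disjoint_left.1 (hF2 j) ha.1 hmem
    · intro hall
      by_contra hy
      classical
      let a : Can := fun m => decide (∃ k, U m ⊆ U (y k))
      have haD : a ∈ downSets U := by
        intro m k hmk hk
        simp only [a, decide_eq_true_eq] at hk ⊢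
        obtain ⟨l, hl⟩ := hk
        exact ⟨l, hmk.trans hl⟩
      have hay : ∀ k, a (y k) = true := by
        intro k
        simp only [a, decide_eq_true_eq]
        exact ⟨k, subset_rfl⟩
      have haT : a ∈ downSets U \ aboveD U n := by
        refine ⟨haD, ?_⟩
        rintro ⟨_, h2⟩
        apply hy
        show U n ⊆ ⋃ k, U (y k)
        intro x hx
        obtain ⟨m, hm, hx⟩ := mem_iUnion₂.1 (h2 hx)
        simp only [a, mem_ofPred_eq, decide_eq_true_eq] at hm
        obtain ⟨k, hk⟩ := hm
        exact mem_iUnion.2 ⟨k, hk hx⟩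
      obtain ⟨j, hj⟩ := mem_iUnion.1 (hF3 haT)
      exact hall j a ⟨hj, haD⟩ hay

theorem measurableSet_above {X : Type*} (U : ℕ → Set X)
    (hE : MeasurableSet (sameOpen U)) (n : ℕ) : MeasurableSet (above U n) := by
  have hc : Continuous (fun y : ℕ → ℕ => ((fun k => Nat.casesOn k n y : ℕ → ℕ), y)) := by
    apply Continuous.prodMk _ continuous_id
    refine continuous_pi fun k => ?_
    cases k with
    | zero => exact continuous_const
    | succ k => exact continuous_apply k
  have : above U n =
      (fun y : ℕ → ℕ => ((fun k => Nat.casesOn k n y : ℕ → ℕ), y)) ⁻¹' (sameOpen U) := by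
    ext y
    simp only [above, sameOpen, mem_ofPred_eq, mem_preimage]
    have hU : (⋃ k : ℕ, U (Nat.casesOn k n y : ℕ)) = U n ∪ ⋃ k, U (y k) := by
      ext x
      simp only [mem_iUnion, mem_union]
      constructor
      · rintro ⟨k, hk⟩
        cases k with
        | zero => exact Or.inl hk
        | succ k => exact Or.inr ⟨k, hk⟩
      · rintro (h | ⟨k, hk⟩)
        · exact ⟨0, h⟩
        · exact ⟨k + 1, hk⟩
    constructor
    · intro h
      exact hU.trans (union_eq_right.2 h)
    · intro h
      exact union_eq_right.1 (hU.symm.trans h)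
  rw [this]
  exact hc.measurable hE

/-- For every space `X` with an enumerated countable basis `U`, if the equality of coded open sets
is Borel then it is a countable intersection of open sets. -/
theorem result {X : Type*} [TopologicalSpace X] (U : ℕ → Set X)
    (hU : IsTopologicalBasis (range U))
    (hE : MeasurableSet[borel ((ℕ → ℕ) × (ℕ → ℕ))] (sameOpen U)) :
    IsGδ (sameOpen U) := by
  have hE' : MeasurableSet (sameOpen U) := by
    rwa [← BorelSpace.measurable_eq (α := (ℕ → ℕ) × (ℕ → ℕ))] at hE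
  have h1 : ∀ n, ∃ W : ℕ → Set (ℕ → ℕ), (∀ j, IsOpen (W j)) ∧ above U n = ⋂ j, W j :=
    fun n => isGδ_above U hU n (measurableSet_above U hE' n)
  choose W hW1 hW2 using h1
  have h2 : sameOpen U = ⋂ (k : ℕ) (j : ℕ),
      ((⋃ n, ({z : (ℕ → ℕ) × (ℕ → ℕ) | z.1 k = n} ∩ {z | z.2 ∈ W n j})) ∩
        (⋃ n, ({z : (ℕ → ℕ) × (ℕ → ℕ) | z.2 k = n} ∩ {z | z.1 ∈ W n j}))) := by
    ext z
    have h3 : ∀ n y, y ∈ above U n ↔ ∀ j, y ∈ W n j := by
      intro n y
      rw [hW2, mem_iInter]
    have h4 : z ∈ sameOpen U ↔ ∀ k, z.2 ∈ above U (z.1 k) ∧ z.1 ∈ above U (z.2 k) := by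
      constructor
      · intro h k
        have h : ⋃ n, U (z.1 n) = ⋃ n, U (z.2 n) := h
        refine ⟨?_, ?_⟩
        · show U (z.1 k) ⊆ ⋃ n, U (z.2 n)
          rw [← h]
          exact subset_iUnion (fun n => U (z.1 n)) k
        · show U (z.2 k) ⊆ ⋃ n, U (z.1 n)
          rw [h]
          exact subset_iUnion (fun n => U (z.2 n)) k
      · intro h
        exact subset_antisymm (iUnion_subset fun k => (h k).1) (iUnion_subset fun k => (h k).2)
    rw [h4]
    simp only [h3, mem_iInter, mem_inter_iff, mem_iUnion, mem_ofPred_eq, exists_eq_left']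
    constructor
    · intro h k j
      exact ⟨(h k).1 j, (h k).2 j⟩
    · intro h k
      exact ⟨fun j => (h k j).1, fun j => (h k j).2⟩
  rw [h2]
  refine IsGδ.iInter fun k => IsGδ.iInter fun j => IsOpen.isGδ ?_
  apply IsOpen.inter
  · refine isOpen_iUnion fun n => IsOpen.inter ?_ ?_
    · exact (isOpen_discrete ({n} : Set ℕ)).preimage
        (f := fun p : (ℕ → ℕ) × (ℕ → ℕ) => p.1 k) ((continuous_apply k).comp continuous_fst)
    · exact (hW1 n j).preimage continuous_snd
  · refine isOpen_iUnion fun n => IsOpen.inter ?_ ?_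
    · exact (isOpen_discrete ({n} : Set ℕ)).preimage
        (f := fun p : (ℕ → ℕ) × (ℕ → ℕ) => p.2 k) ((continuous_apply k).comp continuous_snd)
    · exact (hW1 n j).preimage continuous_fst

end Pool.Agent.Results.MP_e9e8de_lc.BorelImpliesGdelta
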